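import Pool.Agent.Y262.EX.Stm

/-!
# Project EX, statement PHI2: the metric is smooth and invariant
-/

set_option autoImplicit false

open Set Filter Topology MeasureTheory
open scoped ContDiff ComplexConjugate Real

noncomputable section

namespace Pool.Agent.Y794.EX

open Pool.Agent.Y262.EG Pool.Agent.Y262.EX

lemma isOpen_Om : IsOpen Om := by
  have h1 : IsOpen {z : ℂ | -(7 / 2 * L0) < z.re} := isOpen_lt continuous_const Complex.continuous_re
  have h2 : IsOpen {z : ℂ | z.re < 9 / 2 * L0} := isOpen_lt Complex.continuous_re continuous_const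
  exact h1.inter h2

lemma isOpen_Stp (L δ : ℝ) : IsOpen (Stp L δ) := by
  have h1 : IsOpen {z : ℂ | -δ < z.re} := isOpen_lt continuous_const Complex.continuous_re
  have h2 : IsOpen {z : ℂ | z.re < L + δ} := isOpen_lt Complex.continuous_re continuous_const
  exact h1.inter h2

lemma cont_ac (hA : StAc) (γ : Gq) : ContDiffOn ℝ ∞ (ac γ) Om := by
  have hd : DifferentiableOn ℂ (ac γ) Om := fun z hz => ((hA.1 γ z hz).2.2.2.1).differentiableWithinAt
  have h1 : ContDiffOn ℂ ∞ (ac γ) Om := hd.contDiffOn isOpen_Om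
  exact h1.restrict_scalars ℝ

/-- `F0` is smooth on the interval -/
lemma cont_F0 (hW : StW) : ContDiffOn ℝ ∞ F0 (Ioo (-(7 / 2 * L0)) (9 / 2 * L0)) := by
  obtain ⟨hL, hlam, -, -, -, -, hOm, -⟩ := hW
  have hcos : ∀ x ∈ Ioo (-(7 / 2 * L0)) (9 / 2 * L0), Real.cos (lam * (x - L0 / 2)) ≠ 0 := by
    intro x hx
    have h1 : (x : ℂ) ∈ Om := by
      refine ⟨?_, ?_⟩
      · simpa using hx.1
      · simpa using hx.2
    rw [hOm] at h1
    have h2 : |lam * (x - L0 / 2)| < π / 2 := by simpa using h1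
    have h3 := abs_lt.mp h2
    exact (Real.cos_pos_of_mem_Ioo ⟨by linarith [h3.1], h3.2⟩).ne'
  have h2 : ContDiffOn ℝ ∞ (fun x : ℝ => Real.cos (lam * (x - L0 / 2)))
      (Ioo (-(7 / 2 * L0)) (9 / 2 * L0)) := by
    apply ContDiff.contDiffOn
    fun_prop
  exact (h2.log hcos).neg

lemma cont_F0re (hW : StW) : ContDiffOn ℝ ∞ (fun z : ℂ => F0 z.re) Om := by
  have h1 : ContDiffOn ℝ ∞ (fun z : ℂ => z.re) Om := Complex.reCLM.contDiff.contDiffOn
  exact (cont_F0 hW).comp h1 (fun z hz => ⟨hz.1, hz.2⟩)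

lemma cont_gre {g : ℝ → ℝ} (hg : ContDiffOn ℝ ∞ g (Ioo (-(7 / 2 * L0)) (9 / 2 * L0))) :
    ContDiffOn ℝ ∞ (fun z : ℂ => g z.re) Om := by
  have h1 : ContDiffOn ℝ ∞ (fun z : ℂ => z.re) Om := Complex.reCLM.contDiff.contDiffOn
  exact hg.comp h1 (fun z hz => ⟨hz.1, hz.2⟩)

lemma smooth (hW : StW) (hA : StAc) (hP : StPhi1) {g : ℝ → ℝ} {c1 C : ℝ} (hg : Prof g c1 C) :
    ContDiffOn ℝ ∞ (phi g c1) Om := by
  obtain ⟨p1, p2, p3, p4⟩ := hP g c1 C hg
  intro z hz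
  apply ContDiffAt.contDiffWithinAt
  have hOmz : Om ∈ 𝓝 z := isOpen_Om.mem_nhds hz
  have hF := (cont_F0re hW).contDiffAt hOmz
  by_cases h : ∃ γ : Gq, ac γ z ∈ Stp L0 (3 / 2 * L0)
  · obtain ⟨γ, hγ⟩ := h
    have hac := (cont_ac hA γ).contDiffAt hOmz
    have hm : ac γ z ∈ Om := (hA.1 γ z hz).1
    have hOmz' : Om ∈ 𝓝 (ac γ z) := isOpen_Om.mem_nhds hm
    have hF' := ((cont_F0re hW).contDiffAt hOmz').comp z hac
    have hg' := ((cont_gre hg.smooth).contDiffAt hOmz').comp z hac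
    have hall := (hF.add hg').sub hF'
    refine hall.congr_of_eventuallyEq ?_
    have h1 : ∀ᶠ w in 𝓝 z, ac γ w ∈ Stp L0 (3 / 2 * L0) :=
      hac.continuousAt.eventually_mem ((isOpen_Stp _ _).mem_nhds hγ)
    filter_upwards [h1, hOmz] with w hw1 hw2
    exact p1 γ w hw2 hw1
  · push Not at h
    have h1 := p4 z hz h
    exact (hF.add (contDiffAt_const (c := c1))).congr_of_eventuallyEq h1

lemma sub_Stp (hL : 0 < L0) {z : ℂ} (hz : z ∈ Stp L0 (1 / 2 * L0)) : z ∈ Stp L0 (3 / 2 * L0) := by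
  obtain ⟨h1, h2⟩ := hz
  exact ⟨by linarith, by linarith⟩

/-- outside the images of the collar -/
lemma phi_out (hW : StW) (hP : StPhi1) {g : ℝ → ℝ} {c1 C : ℝ} (hg : Prof g c1 C) {z : ℂ}
    (hz : z ∈ Om) (h : ∀ γ : Gq, ac γ z ∉ Stp L0 (3 / 2 * L0)) : phi g c1 z = F0 z.re + c1 :=
  (hP g c1 C hg).2.2.1 z hz (fun γ hγ => h γ (sub_Stp hW.1 hγ))

theorem phi2 : StW → StAc → StConj → StPhi1 → StPhi2 := by
  intro hW hA hC hP g c1 C hg
  obtain ⟨p1, p2, p3, p4⟩ := hP g c1 C hg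
  refine ⟨⟨smooth hW hA hP hg, ?_⟩, ?_⟩
  · intro γ z hz
    obtain ⟨hm, -, hmul, hdiff, hne, hF⟩ := hA.1 γ z hz
    refine ⟨hne, ?_⟩
    by_cases h : ∃ γ0 : Gq, ac γ0 z ∈ Stp L0 (3 / 2 * L0)
    · obtain ⟨γ0, hγ0⟩ := h
      have e1 : ac (γ0 * γ⁻¹) (ac γ z) = ac γ0 z := by
        rw [← hmul (γ0 * γ⁻¹), inv_mul_cancel_right]
      have e2 := p1 γ0 z hz hγ0
      have e3 := p1 (γ0 * γ⁻¹) (ac γ z) hm (by rw [e1]; exact hγ0)
      rw [e1] at e3
      rw [e2, e3]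
      linarith
    · push Not at h
      have h' : ∀ γ' : Gq, ac γ' (ac γ z) ∉ Stp L0 (3 / 2 * L0) := by
        intro γ'
        rw [← hmul γ']
        exact h _
      rw [phi_out hW hP hg hz h, phi_out hW hP hg hm h']
      linarith
  · intro z hz
    have hz' := hC.1 z hz
    by_cases h : ∃ γ0 : Gq, ac γ0 z ∈ Stp L0 (3 / 2 * L0)
    · obtain ⟨γ0, hγ0⟩ := h
      obtain ⟨γ', hγ'⟩ := hC.2 γ0
      have e0 := hγ' z hz
      have hre : (ac γ' (conj z)).re = (ac γ0 z).re := by rw [← e0, Complex.conj_re]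
      have hm' : ac γ' (conj z) ∈ Stp L0 (3 / 2 * L0) := by
        obtain ⟨h1, h2⟩ := hγ0
        exact ⟨by rw [hre]; exact h1, by rw [hre]; exact h2⟩
      rw [p1 γ0 z hz hγ0, p1 γ' (conj z) hz' hm', hre, Complex.conj_re]
    · have h2 : ∀ γ : Gq, ac γ (conj z) ∉ Stp L0 (3 / 2 * L0) := by
        intro γ hγ
        obtain ⟨γ', hγ'⟩ := hC.2 γ
        have e0 := hγ' (conj z) hz'
        rw [Complex.conj_conj] at e0
        apply h
        refine ⟨γ', ?_⟩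
        have hre : (ac γ' z).re = (ac γ (conj z)).re := by rw [← e0, Complex.conj_re]
        obtain ⟨h1, h2⟩ := hγ
        exact ⟨by rw [hre]; exact h1, by rw [hre]; exact h2⟩
      push Not at h
      rw [phi_out hW hP hg hz h, phi_out hW hP hg hz' h2, Complex.conj_re]

end Pool.Agent.Y794.EX
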